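import Pool.Agent.Helper1_RL.Stmts

/-!
# Existence of the data (module GDA, MP_62da59_gt)
-/

noncomputable section

open scoped ContDiff Topology ENNReal RealInnerProductSpace
set_option maxSynthPendingDepth 3
open Set Metric

namespace Pool.Agent.RLim.H88

open Pool.Agent.RF Pool.Agent.RLim

/-- a point of the plane `Σ` -/
def pt (x : ℝ × ℝ) : E4 := WithLp.toLp 2 ![x.1, x.2, 0, 0]

theorem dist_pt (x : ℝ × ℝ) (Y : E4) (h2 : Y 2 = 0) (h3 : Y 3 = 0) :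
    dist (pt x) Y = √((x.1 - Y 0) ^ 2 + (x.2 - Y 1) ^ 2) := by
  rw [EuclideanSpace.dist_eq, Fin.sum_univ_four]
  simp [pt, h2, h3, Real.dist_eq, sq_abs]

theorem exists_low (a : ℕ → ℝ) (ha : ∀ k, 0 < a k) (j : ℕ) :
    ∃ d : ℝ, 0 < d ∧ ∀ k < j, d ≤ a k := by
  induction j with
  | zero => exact ⟨1, one_pos, fun k hk => absurd hk (Nat.not_lt_zero k)⟩
  | succ j ih =>
    obtain ⟨d, hd, h⟩ := ih
    refine ⟨min d (a j), lt_min hd (ha j), fun k hk => ?_⟩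
    rcases Nat.lt_succ_iff_lt_or_eq.1 hk with h1 | rfl
    · exact (min_le_left _ _).trans (h k h1)
    · exact min_le_right _ _

/-- GDA -/
theorem gda (hM : ModelStmt) (hS : SelStmt) : GdaStmt := by
  obtain ⟨r, b, c0, c1, C0, hr, hr1, hb, hc0, hc1, hC0, hmod⟩ := hM
  obtain ⟨x, s, K, hx, hs, hs2, hd, hK1, hK2, hK3⟩ := hS
  have hη : ∀ k, 0 < s k ^ 2 ∧ s k ^ 2 < 1 := by
    intro k
    have h1 := hs k
    have h2 := hs2 k
    have h3 : (1 : ℝ) / 2 ^ (k + 3) ≤ 1 / 2 := by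
      apply one_div_le_one_div_of_le (by norm_num)
      calc (2 : ℝ) = 2 ^ 1 := by norm_num
        _ ≤ 2 ^ (k + 3) := pow_le_pow_right₀ (by norm_num) (by omega)
    constructor
    · positivity
    · nlinarith
  have h1 := fun k => hmod (s k ^ 2) (hη k).1 (hη k).2
  choose L hL δ0 hδ0 hG using h1
  have hLp : ∀ k, 0 < L k := fun k => by linarith [hL k]
  have hw : ∀ k, 0 < s k / L k := fun k => div_pos (hs k) (hLp k)
  choose dlt hdlt hdlt2 using exists_low (fun k => s k / L k * δ0 k)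
    (fun k => mul_pos (hw k) (hδ0 k))
  have h2 : ∀ j k, ∃ G : E4 → Bil E4, k < j → IsMetricOn G (Om (Fin 4)) ∧
        (∀ X : E4, X ≠ 0 → ‖X‖ < 1 / 4 → G X = coreM b X) ∧
        (∀ X : E4, L k / 4 ≤ ‖X‖ → G X = bg r (dlt j / (s k / L k)) X) ∧
        (∀ X : E4, X ≠ 0 → ‖X‖ ≤ L k → ∀ V,
          -(s k ^ 2 / L k ^ 2) * G X V V ≤ ric G X V V) ∧
        (∀ X : E4, X ≠ 0 → ∀ V, c0 * ‖V‖ ^ 2 ≤ G X V V) ∧
        (∀ X : E4, X ≠ 0 → ∀ V, c1 * ‖fderiv ℝ hopf X V‖ ^ 2 ≤ G X V V) ∧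
        (∀ X : E4, 1 ≤ ‖X‖ → ∀ V, G X V V ≤ C0 * ‖V‖ ^ 2) ∧
        (∀ X : E4, X ≠ 0 → ‖X‖ ≤ 1 → ∀ V,
          G X V V ≤ C0 * (‖V‖ ^ 2 + ‖fderiv ℝ hopf X V‖ ^ 2)) := by
    intro j k
    by_cases hk : k < j
    · obtain ⟨G, hG'⟩ := hG k (dlt j / (s k / L k)) (div_pos (hdlt j) (hw k)) (by
        rw [div_le_iff₀ (hw k), mul_comm]
        exact hdlt2 j k hk)
      exact ⟨G, fun _ => hG'⟩
    · exact ⟨0, fun h => absurd h hk⟩
  choose G hG2 using h2
  refine ⟨{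
    P := fun k => pt (x k)
    s := s
    L := L
    dlt := dlt
    G := G
    r := r
    b := b
    c0 := c0
    c1 := c1
    C0 := C0
    r_pos := hr
    r_lt := hr1
    b_pos := hb
    c0_pos := hc0
    c1_pos := hc1
    C0_pos := hC0
    P2 := fun k => by simp [pt]
    P3 := fun k => by simp [pt]
    s_pos := hs
    s_le := hs2
    disj := fun k l hkl => by
      rw [dist_pt (x k) (pt (x l)) (by simp [pt]) (by simp [pt])]
      simpa [pt] using hd k l hkl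
    L_ge := hL
    dlt_pos := hdlt
    metric := fun j k hk => (hG2 j k hk).1
    core := fun j k hk => (hG2 j k hk).2.1
    out := fun j k hk => (hG2 j k hk).2.2.1
    ric_ge := fun j k hk => (hG2 j k hk).2.2.2.1
    low := fun j k hk => (hG2 j k hk).2.2.2.2.1
    lowv := fun j k hk => (hG2 j k hk).2.2.2.2.2.1
    up := fun j k hk => (hG2 j k hk).2.2.2.2.2.2.1
    upv := fun j k hk => (hG2 j k hk).2.2.2.2.2.2.2 }, ?_,
    {X : E4 | X 2 = 0 ∧ X 3 = 0 ∧ (X 0, X 1) ∈ K}, ?_, ?_, ?_, ?_⟩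
  · intro k
    change ‖pt (x k)‖ ≤ 2
    obtain ⟨ha, hb'⟩ := hx k
    rw [EuclideanSpace.norm_eq, Fin.sum_univ_four, Real.sqrt_le_left (by norm_num)]
    have e1 := sq_le_sq' (by linarith [abs_nonneg (x k).1]) ha
    have e2 := sq_le_sq' (by linarith [abs_nonneg (x k).2]) hb'
    simp only [pt, Real.norm_eq_abs, sq_abs]
    rw [sq_abs] at e1 e2
    simp
    nlinarith
  · exact fun X hX => ⟨hX.1, hX.2.1⟩
  · intro X hX k hk
    apply hK1 _ hX.2.2 k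
    rw [hk]
    simp [pt]
  · have : (fun X : E4 => (X 0, X 1)) '' {X : E4 | X 2 = 0 ∧ X 3 = 0 ∧ (X 0, X 1) ∈ K} = K := by
      ext y
      constructor
      · rintro ⟨X, hX, rfl⟩
        exact hX.2.2
      · intro hy
        exact ⟨pt y, ⟨by simp [pt], by simp [pt], by simpa [pt] using hy⟩, by simp [pt]⟩
    rw [this]
    exact hK2
  · intro X hX ε hε N
    obtain ⟨k, hk, h⟩ := hK3 _ hX.2.2 ε hε N
    refine ⟨k, hk, ?_⟩
    change dist (pt (x k)) X < ε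
    rw [dist_pt (x k) X hX.1 hX.2.1]
    exact h

end Pool.Agent.RLim.H88
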