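import Pool.Agent.Helper1_RL.Stmts

/-!
# Extension over the exceptional spheres (module GEX, MP_62da59_gt)
-/

noncomputable section

open scoped ContDiff Topology ENNReal RealInnerProductSpace
set_option maxSynthPendingDepth 3
open Set Metric

namespace Pool.Agent.RLim.H88

open Pool.Agent.RF Pool.Agent.RLim

theorem norm_Phi0_sq (i : Bool) (q : E4) :
    ‖Phi0 i q‖ ^ 2 = (q 0 ^ 2 + q 1 ^ 2) * (1 + q 2 ^ 2 + q 3 ^ 2) := by
  rw [EuclideanSpace.norm_sq_eq, Fin.sum_univ_four]
  cases i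
  · simp [Phi0]
    ring
  · simp [Phi0]
    ring

theorem norm_Phi0_lt (i : Bool) {q : E4} (hq : q ∈ WW) : ‖Phi0 i q‖ < 1 / 4 := by
  have h : ‖Phi0 i q‖ ^ 2 < (1 / 4) ^ 2 := by
    rw [norm_Phi0_sq]
    have : (q 0 ^ 2 + q 1 ^ 2) * (1 + q 2 ^ 2 + q 3 ^ 2) < 1 / 16 := hq
    linarith
  exact lt_of_pow_lt_pow_left₀ 2 (by norm_num) h

theorem Phi0_ne (i : Bool) {q : E4} (hq : q 0 ≠ 0 ∨ q 1 ≠ 0) : Phi0 i q ≠ 0 := by
  intro h
  have h1 := norm_Phi0_sq i q
  rw [h, norm_zero] at h1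
  have h2 : 0 < q 0 ^ 2 + q 1 ^ 2 := by
    rcases hq with h | h
    · positivity
    · positivity
  have h3 : 0 < 1 + q 2 ^ 2 + q 3 ^ 2 := by positivity
  have := mul_pos h2 h3
  linarith

theorem differentiable_Phi0 (i : Bool) : Differentiable ℝ (Phi0 i) := by
  rw [differentiable_euclidean]
  intro m
  cases i
  · fin_cases m <;> simp [Phi0] <;> fun_prop
  · fin_cases m <;> simp [Phi0] <;> fun_prop

/-- GEX -/
theorem gex (hglo : GloStmt) (hext : ExtStmt) : GexStmt := by
  intro D j k hk i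
  obtain ⟨C, hC, hC2⟩ := hext D.b D.b_pos i
  have hL := D.L_ge k
  have hs := D.s_pos k
  have hw : 0 < D.w k := div_pos hs (by linarith)
  refine ⟨fun q => D.w k ^ 2 • C q, ⟨hC.isOpen, hC.smooth.const_smul _, ?_, ?_⟩, ?_⟩
  · intro x hx v v'
    change D.w k ^ 2 * C x v v' = D.w k ^ 2 * C x v' v
    rw [hC.symm x hx]
  · intro x hx v hv
    change 0 < D.w k ^ 2 * C x v v
    exact mul_pos (by positivity) (hC.pos x hx v hv)
  · intro q hq hq0
    have hn := norm_Phi0_lt i hq
    have hne := Phi0_ne i hq0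
    have hlt : ‖D.P k + D.w k • Phi0 i q - D.P k‖ < D.s k := by
      rw [add_sub_cancel_left, norm_smul, Real.norm_eq_abs, abs_of_pos hw]
      have e : D.w k * D.L k = D.s k := by
        unfold GData.w
        rw [div_mul_cancel₀]
        intro h0
        linarith
      nlinarith
    have hg : D.g j (D.P k + D.w k • Phi0 i q) = coreM D.b (Phi0 i q) := by
      rw [(hglo D j).1 k hk _ hlt, add_sub_cancel_left, smul_smul, inv_mul_cancel₀ hw.ne',
        one_smul]
      exact D.core j k hk _ hne hn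
    have hfd : fderiv ℝ (fun q => D.P k + D.w k • Phi0 i q) q = D.w k • fderiv ℝ (Phi0 i) q := by
      rw [fderiv_const_add]
      exact fderiv_const_smul (differentiable_Phi0 i q) (D.w k)
    ext v v'
    change D.w k ^ 2 * C q v v' = D.g j (D.P k + D.w k • Phi0 i q)
      (fderiv ℝ (fun q => D.P k + D.w k • Phi0 i q) q v)
      (fderiv ℝ (fun q => D.P k + D.w k • Phi0 i q) q v')
    rw [hg, hfd, hC2 q hq hq0]
    simp only [pullb_apply, smul_apply, map_smul, smul_eq_mul]
    ring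

end Pool.Agent.RLim.H88
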